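import Pool.Agent.Lib.MP_e7ecb4_lc.Sh.Final

set_option autoImplicit false

namespace Pool.Agent.Results.MP_e7ecb4_lc.ExplicitCardinal

open Pool.Agent.Lib.MP_e7ecb4_lc

universe u

/-- `F(ℵ_{ω+1}) > ℵ_{ω+1}`: every cardinal `l` such that all partial orders without antichains of
cardinality `ℵ_{ω+1}` are unions of fewer than `l` ideals is larger than `ℵ_{ω+1}`. -/
theorem result (l : Cardinal.{u}) (h : Bound (Cardinal.aleph (Ordinal.omega0 + 1)) l) :
    Cardinal.aleph (Ordinal.omega0 + 1) < l := by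
  rw [← Cardinal.succ_aleph] at h ⊢
  refine Sh.succ_singular ?_ ?_ l h
  · rw [← Cardinal.aleph_zero, Cardinal.aleph_lt_aleph]
    exact Ordinal.omega0_pos
  · rw [Cardinal.ord_aleph, Ordinal.cof_omega Ordinal.isSuccLimit_omega0, Ordinal.cof_omega0]

end Pool.Agent.Results.MP_e7ecb4_lc.ExplicitCardinal
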