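import Mathlib
import Pool.Agent.Lib.MP_e7ecb4_lc.ProvB

set_option autoImplicit false

namespace Pool.Agent.Results.MP_e7ecb4_lc.NotIdProv

open Pool.Agent.Lib.MP_60e7f9_lc

/-- Sanity check: the proof system does not prove the negation. -/
theorem consistent : ¬ Prov.Prf [] (Prov.neg Prov.notId 0) := Prov.not_prf_neg Prov.prf_notId

/-- ZFC proves that there are arbitrarily large infinite cardinals `m` with `F(m) > m`. -/
theorem result : Prov.Prf [] (Prov.notId 0) := Prov.prf_notId

end Pool.Agent.Results.MP_e7ecb4_lc.NotIdProv
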